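import Pool.Agent.Q156.SectionCentroid

/-!
The domain `{x : all x_i > 0, prod x_i > 1}` in `ℝ^(n+1)`, `n ≥ 2`, is strictly convex with smooth
boundary, has the section-centroid collinearity property, and its boundary is not contained in a
quadric.
-/

open MeasureTheory Metric Module Set
open scoped RealInnerProductSpace MeasureTheory Topology ContDiff

namespace Pool.Agent.Results.MP_d39bc3_gt.ProductDomain

open Pool.Agent.Q156

section definitions

variable {E : Type*} [NormedAddCommGroup E] [InnerProductSpace ℝ E]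

/-- The section of `Ω` by the affine subspace `x + M`. -/
def sec (Ω : Set E) (M : Submodule ℝ E) (x : E) : Set E := {y | y ∈ Ω ∧ y - x ∈ M}

/-- The section-centroid collinearity property: for every `n`-dimensional subspace `M` for which
all sections `(x + M) ∩ Ω` are bounded, the centroids (with respect to `n`-dimensional Hausdorff
measure) of all the sections which meet the interior of `Ω` lie on one line `p + ℝ d`. -/
def HasSCCP [MeasurableSpace E] [BorelSpace E] (n : ℕ) (Ω : Set E) : Prop :=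
  ∀ M : Submodule ℝ E, finrank ℝ M = n → (∀ x, Bornology.IsBounded (sec Ω M x)) →
    ∃ p d : E, d ≠ 0 ∧ ∀ x, (sec (interior Ω) M x).Nonempty →
      ∃ t : ℝ, (⨍ y in sec Ω M x, y ∂(Measure.hausdorffMeasure (n : ℝ))) = p + t • d

/-- Near each of its boundary points, `Ω` is the positivity set of a smooth function which vanishes
at the point and has nonzero derivative there. -/
def HasSmoothBoundary (Ω : Set E) : Prop :=
  ∀ p ∈ frontier Ω, ∃ U ∈ 𝓝 p, ∃ F : E → ℝ, ContDiff ℝ ∞ F ∧ F p = 0 ∧ fderiv ℝ F p ≠ 0 ∧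
    ∀ x ∈ U, (x ∈ Ω ↔ 0 < F x)

/-- `S` is contained in the zero set of a function `B(x,x) + b(x) + c` (`B` bilinear, `b` linear,
`c` constant) that is not identically zero. -/
def IsContainedInQuadric (S : Set E) : Prop :=
  ∃ (B : E →ₗ[ℝ] E →ₗ[ℝ] ℝ) (b : E →ₗ[ℝ] ℝ) (c : ℝ),
    (∃ x, B x x + b x + c ≠ 0) ∧ ∀ x ∈ S, B x x + b x + c = 0

end definitions

variable {n : ℕ}

/-- The ambient space. -/
abbrev En (n : ℕ) : Type := EuclideanSpace ℝ (Fin (n + 1))

/-- The domain. -/
def Om (n : ℕ) : Set (En n) := {x | (∀ i, 0 < x i) ∧ 1 < ∏ i, x i}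

/-- Its closure. -/
def Cl (n : ℕ) : Set (En n) := {x | (∀ i, 0 < x i) ∧ 1 ≤ ∏ i, x i}

theorem continuous_prod_coord : Continuous (fun x : En n => ∏ i, x i) :=
  continuous_finsetProd _ fun i _ => (EuclideanSpace.proj (𝕜 := ℝ) i).continuous

theorem continuous_coord (i : Fin (n + 1)) : Continuous (fun x : En n => x i) :=
  (EuclideanSpace.proj (𝕜 := ℝ) i).continuous

theorem isOpen_Om : IsOpen (Om n) := by
  have h : Om n = (⋂ i, {x : En n | 0 < x i}) ∩ {x | 1 < ∏ i, x i} := by
    ext x; simp [Om]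
  rw [h]
  apply IsOpen.inter
  · exact isOpen_iInter_of_finite fun i => isOpen_lt continuous_const (continuous_coord i)
  · exact isOpen_lt continuous_const continuous_prod_coord

theorem isClosed_Cl : IsClosed (Cl n) := by
  have h : Cl n = (⋂ i, {x : En n | 0 ≤ x i}) ∩ {x | 1 ≤ ∏ i, x i} := by
    ext x
    simp only [Cl, mem_ofPred_eq, mem_inter_iff, mem_iInter]
    constructor
    · rintro ⟨h1, h2⟩
      exact ⟨fun i => (h1 i).le, h2⟩
    · rintro ⟨h1, h2⟩
      refine ⟨fun i => lt_of_le_of_ne (h1 i) ?_, h2⟩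
      intro h0
      have : ∏ i, x i = 0 := Finset.prod_eq_zero (Finset.mem_univ i) h0.symm
      rw [this] at h2
      linarith
  rw [h]
  apply IsClosed.inter
  · exact isClosed_iInter fun i => isClosed_le continuous_const (continuous_coord i)
  · exact isClosed_le continuous_const continuous_prod_coord

theorem smul_mem_Om {x : En n} (hx : x ∈ Cl n) {t : ℝ} (ht : 1 < t) : t • x ∈ Om n := by
  obtain ⟨h1, h2⟩ := hx
  refine ⟨fun i => ?_, ?_⟩
  · rw [PiLp.smul_apply, smul_eq_mul]
    exact mul_pos (by linarith) (h1 i)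
  · have : ∏ i, (t • x) i = t ^ (n + 1) * ∏ i, x i := by
      simp only [PiLp.smul_apply, smul_eq_mul]
      rw [Finset.prod_mul_distrib]
      simp
    rw [this]
    have h3 : 1 < t ^ (n + 1) := one_lt_pow₀ ht (by omega)
    nlinarith

theorem closure_Om : closure (Om n) = Cl n := by
  apply Subset.antisymm
  · apply closure_minimal _ isClosed_Cl
    rintro x ⟨h1, h2⟩
    exact ⟨h1, h2.le⟩
  · intro x hx
    have hlim : Filter.Tendsto (fun t : ℝ => t • x) (𝓝[>] 1) (𝓝 x) := by
      have : Filter.Tendsto (fun t : ℝ => t • x) (𝓝 1) (𝓝 ((1 : ℝ) • x)) :=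
        (continuous_id.smul continuous_const).tendsto 1
      rw [one_smul] at this
      exact this.mono_left nhdsWithin_le_nhds
    apply mem_closure_of_tendsto hlim
    filter_upwards [self_mem_nhdsWithin] with t ht
    exact smul_mem_Om hx ht

theorem frontier_Om : frontier (Om n) = {x | (∀ i, 0 < x i) ∧ ∏ i, x i = 1} := by
  rw [isOpen_Om.frontier_eq, closure_Om]
  ext x
  simp only [Cl, Om, mem_sdiff, mem_ofPred_eq, not_and, not_lt]
  constructor
  · rintro ⟨⟨h1, h2⟩, h3⟩
    exact ⟨h1, le_antisymm (h3 h1) h2⟩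
  · rintro ⟨h1, h2⟩
    exact ⟨⟨h1, h2.ge⟩, fun _ => h2.le⟩

theorem strict_ineq {x y : En n} (hx : x ∈ Cl n) (hy : y ∈ Cl n) (hxy : x ≠ y) {a b : ℝ}
    (ha : 0 < a) (hb : 0 < b) (hab : a + b = 1) : a • x + b • y ∈ Om n := by
  obtain ⟨hx1, hx2⟩ := hx
  obtain ⟨hy1, hy2⟩ := hy
  have hz : ∀ i, 0 < (a • x + b • y) i := by
    intro i
    simp only [PiLp.add_apply, PiLp.smul_apply, smul_eq_mul]
    have := mul_pos ha (hx1 i)
    have := mul_pos hb (hy1 i)
    linarith
  refine ⟨hz, ?_⟩
  obtain ⟨j, hj⟩ : ∃ j, x j ≠ y j := by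
    by_contra hcon
    push Not at hcon
    exact hxy (by ext i; exact hcon i)
  have hle : ∀ i, a * Real.log (x i) + b * Real.log (y i) ≤ Real.log ((a • x + b • y) i) := by
    intro i
    have := strictConcaveOn_log_Ioi.concaveOn.2 (mem_Ioi.mpr (hx1 i)) (mem_Ioi.mpr (hy1 i)) ha.le
      hb.le hab
    simpa using this
  have hlt : a * Real.log (x j) + b * Real.log (y j) < Real.log ((a • x + b • y) j) := by
    have := strictConcaveOn_log_Ioi.2 (mem_Ioi.mpr (hx1 j)) (mem_Ioi.mpr (hy1 j)) hj ha
      hb hab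
    simpa using this
  have hsum : ∑ i, (a * Real.log (x i) + b * Real.log (y i)) <
      ∑ i, Real.log ((a • x + b • y) i) :=
    Finset.sum_lt_sum (fun i _ => hle i) ⟨j, Finset.mem_univ j, hlt⟩
  rw [Finset.sum_add_distrib, ← Finset.mul_sum, ← Finset.mul_sum,
    ← Real.log_prod (fun i _ => (hx1 i).ne'), ← Real.log_prod (fun i _ => (hy1 i).ne'),
    ← Real.log_prod (fun i _ => (hz i).ne')] at hsum
  have h1 : 0 ≤ Real.log (∏ i, x i) := Real.log_nonneg hx2
  have h2 : 0 ≤ Real.log (∏ i, y i) := Real.log_nonneg hy2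
  have h3 : 0 < Real.log (∏ i, (a • x + b • y) i) := by
    have := mul_nonneg ha.le h1
    have := mul_nonneg hb.le h2
    linarith
  have h4 : 0 < ∏ i, (a • x + b • y) i := Finset.prod_pos fun i _ => hz i
  exact (Real.log_pos_iff h4.le).mp h3

theorem Om_subset_Cl : Om n ⊆ Cl n := fun _ hx => ⟨hx.1, hx.2.le⟩

theorem strictConvex_Cl : StrictConvex ℝ (Cl n) := by
  intro x hx y hy hxy a b ha hb hab
  exact interior_maximal Om_subset_Cl isOpen_Om (strict_ineq hx hy hxy ha hb hab)

theorem convex_Om : Convex ℝ (Om n) := by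
  rw [convex_iff_forall_pos]
  intro x hx y hy a b ha hb hab
  rcases eq_or_ne x y with rfl | hxy
  · rw [← add_smul, hab, one_smul]
    exact hx
  · exact strict_ineq (Om_subset_Cl hx) (Om_subset_Cl hy) hxy ha hb hab

theorem smooth_boundary : HasSmoothBoundary (Om n) := by
  intro p hp
  rw [frontier_Om] at hp
  obtain ⟨hp1, hp2⟩ := hp
  have hsm : ContDiff ℝ ∞ (fun x : En n => (∏ i, x i) - 1) := by
    apply ContDiff.sub _ contDiff_const
    apply contDiff_prod
    intro i _
    exact (EuclideanSpace.proj (𝕜 := ℝ) i : En n →L[ℝ] ℝ).contDiff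
  refine ⟨{x | ∀ i, 0 < x i}, ?_, fun x => (∏ i, x i) - 1, hsm, by simp [hp2], ?_, ?_⟩
  · have h : {x : En n | ∀ i, 0 < x i} = ⋂ i, {x : En n | 0 < x i} := by
      ext x; simp
    rw [h]
    apply (isOpen_iInter_of_finite fun i =>
      isOpen_lt continuous_const (continuous_coord i)).mem_nhds
    simpa using hp1
  · intro h0
    have hd : DifferentiableAt ℝ (fun x : En n => (∏ i, x i) - 1) p :=
      (hsm.differentiable (by simp)) p
    have h1 : HasFDerivAt (fun x : En n => (∏ i, x i) - 1)
        (fderiv ℝ (fun x : En n => (∏ i, x i) - 1) p) p := hd.hasFDerivAt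
    rw [h0] at h1
    have hline : HasDerivAt (fun t : ℝ => t • p) p 1 := by
      simpa using (hasDerivAt_id (1 : ℝ)).smul_const p
    have h1' : HasFDerivAt (fun x : En n => (∏ i, x i) - 1)
        (0 : En n →L[ℝ] ℝ) ((fun t : ℝ => t • p) 1) := by
      simpa using h1
    have h2 := h1'.comp_hasDerivAt (1 : ℝ) hline
    have h3 : ((fun x : En n => (∏ i, x i) - 1) ∘ fun t : ℝ => t • p) =
        fun t : ℝ => t ^ (n + 1) - 1 := by
      ext t
      simp only [Function.comp, PiLp.smul_apply, smul_eq_mul]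
      rw [Finset.prod_mul_distrib, hp2]
      simp
    rw [h3] at h2
    have h4 : HasDerivAt (fun t : ℝ => t ^ (n + 1) - 1) ((n + 1 : ℕ) * (1 : ℝ) ^ n) 1 := by
      have := (hasDerivAt_pow (n + 1) (1 : ℝ)).sub_const 1
      simpa using this
    have h5 := h2.unique h4
    simp at h5
    have : (0 : ℝ) < (n : ℝ) + 1 := by positivity
    linarith
  · intro x hx
    constructor
    · rintro ⟨_, h2⟩
      linarith
    · intro h
      exact ⟨hx, by linarith⟩

/-! ### The section-centroid collinearity property -/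

theorem inner_En (x y : En n) : ⟪x, y⟫ = ∑ i, x i * y i := by
  simp only [PiLp.inner_apply, RCLike.inner_apply, RCLike.conj_to_real]
  exact Finset.sum_congr rfl fun i _ => mul_comm _ _

theorem coord_single (i j : Fin (n + 1)) (r : ℝ) :
    (EuclideanSpace.single i r : En n) j = if j = i then r else 0 := by
  simp

/-- If all sections parallel to `M` are bounded then a normal of `M` has positive coordinates. -/
theorem normal_pos (M : Submodule ℝ (En n)) (hM : finrank ℝ M = n)
    (hb : ∀ x, Bornology.IsBounded (sec (Om n) M x)) :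
    ∃ a : En n, (∀ i, 0 < a i) ∧ ∀ y, y ∈ M ↔ ∑ i, a i * y i = 0 := by
  have h1 : finrank ℝ Mᗮ = 1 := by
    have := Submodule.finrank_add_finrank_orthogonal M
    rw [hM, finrank_euclideanSpace_fin] at this
    omega
  obtain ⟨⟨a, haM⟩, ha0, hspan⟩ := finrank_eq_one_iff'.mp h1
  have hmem : ∀ y, y ∈ M ↔ ⟪a, y⟫ = 0 := by
    intro y
    constructor
    · intro hy
      exact Submodule.inner_left_of_mem_orthogonal hy haM
    · intro hy
      have : y ∈ Mᗮᗮ := by
        rw [Submodule.mem_orthogonal]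
        intro w hw
        obtain ⟨c, hc⟩ := hspan ⟨w, hw⟩
        have : w = c • a := by
          have := congrArg Subtype.val hc
          exact this.symm
        rw [this, inner_smul_left, hy, mul_zero]
      rwa [Submodule.orthogonal_orthogonal] at this
  -- nonnegative nonzero directions are not in M
  have key : ∀ d : En n, (∀ i, 0 ≤ d i) → d ≠ 0 → ⟪a, d⟫ ≠ 0 := by
    intro d hd hd0 hzero
    have hdM : d ∈ M := (hmem d).mpr hzero
    obtain ⟨x, hx⟩ : ∃ x : En n, x ∈ Cl n :=
      ⟨WithLp.toLp 2 (fun _ => 1), fun i => by simp, by simp⟩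
    have hx2 : (2 : ℝ) • x ∈ Om n := smul_mem_Om hx (by norm_num)
    obtain ⟨C, hC⟩ := (hb ((2 : ℝ) • x)).exists_norm_le
    have hdpos : 0 < ‖d‖ := norm_pos_iff.mpr hd0
    obtain ⟨t, ht⟩ : ∃ t : ℝ, t = (|C| + ‖(2 : ℝ) • x‖ + 1) / ‖d‖ := ⟨_, rfl⟩
    have ht0 : 0 ≤ t := by rw [ht]; positivity
    have hin : (2 : ℝ) • x + t • d ∈ sec (Om n) M ((2 : ℝ) • x) := by
      refine ⟨⟨fun i => ?_, ?_⟩, ?_⟩
      · have h3 := hx2.1 i
        have h4 := mul_nonneg ht0 (hd i)
        have h5 : ((2 : ℝ) • x + t • d) i = ((2 : ℝ) • x) i + t * d i := rfl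
        rw [h5]; linarith
      · refine lt_of_lt_of_le hx2.2 ?_
        apply Finset.prod_le_prod
        · intro i _; exact (hx2.1 i).le
        · intro i _
          have h4 := mul_nonneg ht0 (hd i)
          have h5 : ((2 : ℝ) • x + t • d) i = ((2 : ℝ) • x) i + t * d i := rfl
          rw [h5]; linarith
      · rw [add_sub_cancel_left]
        exact M.smul_mem t hdM
    have h6 := hC _ hin
    have h7 : ‖t • d‖ ≤ ‖(2 : ℝ) • x + t • d‖ + ‖(2 : ℝ) • x‖ := by
      have := norm_sub_le ((2 : ℝ) • x + t • d) ((2 : ℝ) • x)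
      rwa [add_sub_cancel_left] at this
    have ht' : t * ‖d‖ = |C| + ‖(2 : ℝ) • x‖ + 1 := by
      rw [ht, div_mul_cancel₀ _ hdpos.ne']
    rw [norm_smul t d, Real.norm_of_nonneg ht0, ht'] at h7
    have := le_abs_self C
    linarith
  have hne : ∀ i, a i ≠ 0 := by
    intro i h0
    apply key (EuclideanSpace.single i 1)
    · intro j
      rw [coord_single]
      split_ifs <;> norm_num
    · intro h
      have := congrArg (fun z : En n => z i) h
      simp at this
    · rw [inner_En]
      simp [h0]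
  have hsame : ∀ i j, 0 < a i → 0 < a j := by
    intro i j hi
    by_contra hj
    have hj' : a j < 0 := lt_of_le_of_ne (not_lt.mp hj) (hne j)
    have hij : i ≠ j := by
      rintro rfl; linarith
    apply key (EuclideanSpace.single i (-a j) + EuclideanSpace.single j (a i))
    · intro k
      rw [PiLp.add_apply, coord_single, coord_single]
      split_ifs <;> linarith
    · intro h
      have := congrArg (fun z : En n => z i) h
      simp only [PiLp.add_apply] at this
      rw [coord_single, coord_single, if_pos rfl, if_neg hij] at this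
      simp at this
      exact hne j this
    · rw [inner_add_right, inner_En, inner_En]
      simp
      ring
  rcases lt_or_gt_of_ne (hne 0) with h0 | h0
  · refine ⟨-a, fun i => ?_, fun y => ?_⟩
    · have : a i < 0 := by
        by_contra hcon
        have hi : 0 < a i := lt_of_le_of_ne (not_lt.mp hcon) (hne i).symm
        have := hsame i 0 hi
        linarith
      simpa using this
    · rw [hmem, inner_En]
      simp
  · refine ⟨a, fun i => hsame 0 i h0, fun y => ?_⟩
    rw [hmem, inner_En]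

/-- The symmetry `(T y)_i = (a_{i+1} / a_i) y_{i+1}`. -/
noncomputable def cyc (a : En n) (ha : ∀ i, 0 < a i) : En n ≃ₗ[ℝ] En n where
  toFun y := WithLp.toLp 2 fun i => a (i + 1) / a i * y (i + 1)
  invFun y := WithLp.toLp 2 fun i => a (i - 1) / a i * y (i - 1)
  map_add' x y := by
    ext i; simp [mul_add]
  map_smul' c x := by
    ext i; simp; ring
  left_inv y := by
    ext i
    simp only [sub_add_cancel]
    have h1 := (ha i).ne'
    have h2 := (ha (i - 1)).ne'
    field_simp
  right_inv y := by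
    ext i
    simp only [add_sub_cancel_right]
    have h1 := (ha i).ne'
    have h2 := (ha (i + 1)).ne'
    field_simp

theorem cyc_apply (a : En n) (ha : ∀ i, 0 < a i) (y : En n) (i : Fin (n + 1)) :
    cyc a ha y i = a (i + 1) / a i * y (i + 1) := rfl

theorem sum_shift (f : Fin (n + 1) → ℝ) : ∑ i, f (i + 1) = ∑ i, f i :=
  Equiv.sum_comp (Equiv.addRight (1 : Fin (n + 1))) f

theorem prod_shift (f : Fin (n + 1) → ℝ) : ∏ i, f (i + 1) = ∏ i, f i :=
  Equiv.prod_comp (Equiv.addRight (1 : Fin (n + 1))) f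

theorem cyc_sum (a : En n) (ha : ∀ i, 0 < a i) (y : En n) :
    ∑ i, a i * cyc a ha y i = ∑ i, a i * y i := by
  rw [← sum_shift (fun i => a i * y i)]
  apply Finset.sum_congr rfl
  intro i _
  rw [cyc_apply]
  have h1 := (ha i).ne'
  field_simp

theorem cyc_prod (a : En n) (ha : ∀ i, 0 < a i) (y : En n) :
    ∏ i, cyc a ha y i = ∏ i, y i := by
  simp only [cyc_apply]
  rw [Finset.prod_mul_distrib, Finset.prod_div_distrib, prod_shift (fun i => y i),
    prod_shift (fun i => a i), div_self, one_mul]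
  exact (Finset.prod_pos fun i _ => ha i).ne'

theorem cyc_mem (a : En n) (ha : ∀ i, 0 < a i) (y : En n) : cyc a ha y ∈ Om n ↔ y ∈ Om n := by
  constructor
  · rintro ⟨h1, h2⟩
    rw [cyc_prod] at h2
    refine ⟨fun i => ?_, h2⟩
    have h3 := h1 (i - 1)
    rw [cyc_apply, sub_add_cancel] at h3
    have h4 : 0 < a i / a (i - 1) := div_pos (ha _) (ha _)
    exact (mul_pos_iff_of_pos_left h4).mp h3
  · rintro ⟨h1, h2⟩
    refine ⟨fun i => ?_, ?_⟩
    · rw [cyc_apply]
      exact mul_pos (div_pos (ha _) (ha _)) (h1 _)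
    · rwa [cyc_prod]

theorem sccp : HasSCCP n (Om n) := by
  intro M hM hb
  obtain ⟨a, ha, hmem⟩ := normal_pos M hM hb
  obtain ⟨d, hd⟩ : ∃ d : En n, ∀ i, d i = 1 / ((n + 1) * a i) :=
    ⟨WithLp.toLp 2 fun i => 1 / ((n + 1) * a i), fun i => rfl⟩
  have hn1 : (0 : ℝ) < (n : ℝ) + 1 := by positivity
  have hdpos : ∀ i, 0 < d i := by
    intro i
    rw [hd]
    have := ha i
    positivity
  refine ⟨0, d, ?_, ?_⟩
  · intro h
    have := hdpos 0
    rw [h] at this
    simp at this
  intro x hne
  rw [isOpen_Om.interior_eq] at hne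
  refine ⟨∑ i, a i * x i, ?_⟩
  rw [zero_add]
  obtain ⟨t, ht⟩ : ∃ t, t = ∑ i, a i * x i := ⟨_, rfl⟩
  rw [← ht]
  have hsum : ∑ i, a i * (t • d) i = t := by
    have : ∀ i, a i * (t • d) i = t / (n + 1) := by
      intro i
      rw [PiLp.smul_apply, smul_eq_mul, hd]
      have := (ha i).ne'
      field_simp
    simp only [this]
    rw [Finset.sum_const, Finset.card_univ, Fintype.card_fin, nsmul_eq_mul]
    push_cast
    field_simp
  have hsub : ∀ y z : En n, ∑ i, a i * (y - z) i = ∑ i, a i * y i - ∑ i, a i * z i := by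
    intro y z
    rw [← Finset.sum_sub_distrib]
    apply Finset.sum_congr rfl
    intro i _
    rw [PiLp.sub_apply]; ring
  have hin : ∀ y, y - x ∈ M ↔ ∑ i, a i * y i = t := by
    intro y
    rw [hmem, hsub, ← ht, sub_eq_zero]
  have hin' : ∀ y, y - t • d ∈ M ↔ ∑ i, a i * y i = t := by
    intro y
    rw [hmem, hsub, hsum, sub_eq_zero]
  apply average_eq_of_symmetry M n hM (t • d) (sec (Om n) M x) _ (cyc a ha)
  · ext i
    rw [cyc_apply, PiLp.smul_apply, PiLp.smul_apply, smul_eq_mul, smul_eq_mul, hd, hd]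
    have h1 := (ha i).ne'
    have h2 := (ha (i + 1)).ne'
    field_simp
  · intro m hm
    rw [hmem] at hm ⊢
    rw [cyc_sum, hm]
  · intro y
    change (cyc a ha y ∈ Om n ∧ cyc a ha y - x ∈ M) ↔ (y ∈ Om n ∧ y - x ∈ M)
    rw [cyc_mem, hin, hin, cyc_sum]
  · intro m hm hfix
    rw [hmem] at hm
    have hstep : ∀ i : Fin (n + 1), a (i + 1) * m (i + 1) = a i * m i := by
      intro i
      have h1 := congrArg (fun z : En n => z i) hfix
      simp only at h1
      rw [cyc_apply] at h1
      rw [← h1]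
      have h2 := (ha i).ne'
      field_simp
    have hall : ∀ i : Fin (n + 1), a i * m i = a 0 * m 0 := by
      intro i
      induction i using Fin.induction with
      | zero => rfl
      | succ i ih =>
        rw [← Fin.coeSucc_eq_succ, hstep, ih]
    have h0 : a 0 * m 0 = 0 := by
      rw [Finset.sum_congr rfl fun i _ => hall i, Finset.sum_const, Finset.card_univ,
        Fintype.card_fin, nsmul_eq_mul] at hm
      push_cast at hm
      rcases mul_eq_zero.mp hm with h | h
      · exact absurd h hn1.ne'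
      · exact h
    ext i
    have h1 := hall i
    rw [h0] at h1
    rcases mul_eq_zero.mp h1 with h | h
    · exact absurd h (ha i).ne'
    · simpa using h
  · exact hb x
  · have : {m : M | t • d + (m : En n) ∈ sec (Om n) M x} =
        (fun m : M => t • d + (m : En n)) ⁻¹' (Om n) := by
      ext m
      change (t • d + (m : En n) ∈ Om n ∧ t • d + (m : En n) - x ∈ M) ↔ _
      rw [hin, ← hin', add_sub_cancel_left]
      simp
    rw [this]
    exact isOpen_Om.preimage (continuous_const.add continuous_subtype_val)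
  · exact hne
  · intro y hy
    rw [hin', ← hin]
    exact hy.2

/-! ### The boundary is not contained in a quadric -/

/-- A Laurent polynomial with exponents between `-2` and `2` vanishing on the positive reals. -/
theorem laurent (p q r s t : ℝ)
    (h : ∀ x : ℝ, 0 < x → p * x ^ 2 + q * x + r + s * x⁻¹ + t * x⁻¹ ^ 2 = 0) :
    p = 0 ∧ q = 0 ∧ r = 0 ∧ s = 0 ∧ t = 0 := by
  have h1 := h 1 (by norm_num)
  have h2 := h 2 (by norm_num)
  have h3 := h 3 (by norm_num)
  have h4 := h 4 (by norm_num)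
  have h5 := h 5 (by norm_num)
  norm_num at h1 h2 h3 h4 h5
  refine ⟨?_, ?_, ?_, ?_, ?_⟩ <;> linarith

/-- The test points. -/
noncomputable def pt (i j k : Fin (n + 1)) (r s t : ℝ) : En n :=
  WithLp.toLp 2 fun l => (if l = i then r else 1) * (if l = j then s else 1) *
    (if l = k then t else 1)

theorem pt_prod (i j k : Fin (n + 1)) (r s t : ℝ) : ∏ l, pt i j k r s t l = r * s * t := by
  change ∏ l, (if l = i then r else 1) * (if l = j then s else 1) *
    (if l = k then t else 1) = r * s * t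
  rw [Finset.prod_mul_distrib, Finset.prod_mul_distrib, Finset.prod_ite_eq' Finset.univ i,
    Finset.prod_ite_eq' Finset.univ j, Finset.prod_ite_eq' Finset.univ k]
  simp

theorem pt_pos (i j k : Fin (n + 1)) (r s t : ℝ) (hr : 0 < r) (hs : 0 < s) (ht : 0 < t)
    (l : Fin (n + 1)) : 0 < pt i j k r s t l := by
  change 0 < (if l = i then r else 1) * (if l = j then s else 1) * (if l = k then t else 1)
  split_ifs <;> positivity

theorem pt_eq (i j k : Fin (n + 1)) (hij : i ≠ j) (hik : i ≠ k) (hjk : j ≠ k) (r s t : ℝ) :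
    pt i j k r s t = pt i j k 0 0 0 + r • EuclideanSpace.single i (1 : ℝ) +
      s • EuclideanSpace.single j (1 : ℝ) + t • EuclideanSpace.single k (1 : ℝ) := by
  ext l
  simp only [PiLp.add_apply, PiLp.smul_apply, coord_single, smul_eq_mul]
  change (if l = i then r else 1) * (if l = j then s else 1) * (if l = k then t else 1) =
    (if l = i then 0 else 1) * (if l = j then 0 else 1) * (if l = k then 0 else 1) + _ + _ + _
  by_cases h1 : l = i
  · subst h1
    simp [hij, hik]
  · by_cases h2 : l = j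
    · subst h2
      simp [h1, hjk]
    · by_cases h3 : l = k
      · subst h3
        simp [h1, h2]
      · simp [h1, h2, h3]

theorem not_quadric (hn : 2 ≤ n) : ¬ IsContainedInQuadric (frontier (Om n)) := by
  rintro ⟨B, b, c, ⟨x0, hx0⟩, hS⟩
  apply hx0
  set e : Fin (n + 1) → En n := fun i => EuclideanSpace.single i (1 : ℝ) with he
  have hex : ∀ i j : Fin (n + 1), ∃ k, k ≠ i ∧ k ≠ j := by
    intro i j
    have hcard : ({i, j} : Finset (Fin (n + 1))).card < (Finset.univ : Finset (Fin (n + 1))).card := by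
      have h1 : ({i, j} : Finset (Fin (n + 1))).card ≤ 2 := Finset.card_le_two
      rw [Finset.card_univ, Fintype.card_fin]
      omega
    obtain ⟨k, _, hk⟩ := Finset.exists_mem_notMem_of_card_lt_card hcard
    refine ⟨k, ?_, ?_⟩
    · rintro rfl; exact hk (by simp)
    · rintro rfl; exact hk (by simp)
  -- the basic computation
  have hmain : ∀ i j k : Fin (n + 1), i ≠ j → i ≠ k → j ≠ k →
      B (e i) (e i) = 0 ∧ B (e i) (e j) + B (e j) (e i) = 0 ∧
      b (e i) + B (pt i j k 0 0 0) (e i) + B (e i) (pt i j k 0 0 0) = 0 ∧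
      B (pt i j k 0 0 0) (pt i j k 0 0 0) + b (pt i j k 0 0 0) + c = 0 := by
    intro i j k hij hik hjk
    obtain ⟨u, hu⟩ : ∃ u, u = pt (n := n) i j k 0 0 0 := ⟨_, rfl⟩
    have hval : ∀ r s : ℝ, 0 < r → 0 < s →
        B (e i) (e i) * r ^ 2 + ((B (e i) (e j) + B (e j) (e i)) * s +
          (b (e i) + B u (e i) + B (e i) u)) * r +
        (B (e j) (e j) * s ^ 2 + (b (e j) + B u (e j) + B (e j) u) * s +
          (B u u + b u + c) + (B (e i) (e k) + B (e k) (e i)) * s⁻¹ + 0 * s⁻¹ ^ 2) +
        ((B (e j) (e k) + B (e k) (e j)) + (b (e k) + B u (e k) + B (e k) u) * s⁻¹) * r⁻¹ +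
        (B (e k) (e k) * s⁻¹ ^ 2) * r⁻¹ ^ 2 = 0 := by
      intro r s hr hs
      have hmem : pt i j k r s (r⁻¹ * s⁻¹) ∈ frontier (Om n) := by
        rw [frontier_Om]
        refine ⟨pt_pos i j k r s _ hr hs (by positivity), ?_⟩
        rw [pt_prod]
        field_simp
      have h1 := hS _ hmem
      rw [pt_eq i j k hij hik hjk, ← hu] at h1
      change B (u + r • e i + s • e j + (r⁻¹ * s⁻¹) • e k) (u + r • e i + s • e j +
        (r⁻¹ * s⁻¹) • e k) + b (u + r • e i + s • e j + (r⁻¹ * s⁻¹) • e k) + c = 0 at h1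
      simp only [map_add, map_smul, LinearMap.add_apply, LinearMap.smul_apply, smul_eq_mul] at h1
      have hr' : r * r⁻¹ = 1 := mul_inv_cancel₀ hr.ne'
      have hs' : s * s⁻¹ = 1 := mul_inv_cancel₀ hs.ne'
      linear_combination h1 - ((B (e i) (e k) + B (e k) (e i)) * s⁻¹) * hr' -
        ((B (e j) (e k) + B (e k) (e j)) * r⁻¹) * hs'
    have hs1 : ∀ s : ℝ, 0 < s → B (e i) (e i) = 0 ∧
        ((B (e i) (e j) + B (e j) (e i)) * s + (b (e i) + B u (e i) + B (e i) u)) = 0 ∧
        (B (e j) (e j) * s ^ 2 + (b (e j) + B u (e j) + B (e j) u) * s +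
          (B u u + b u + c) + (B (e i) (e k) + B (e k) (e i)) * s⁻¹ + 0 * s⁻¹ ^ 2) = 0 := by
      intro s hs
      obtain ⟨h1, h2, h3, _, _⟩ := laurent _ _ _ _ _ (fun r hr => hval r s hr hs)
      exact ⟨h1, h2, h3⟩
    have hl := laurent _ _ _ _ _ (fun s hs => (hs1 s hs).2.2)
    have g1 := (hs1 1 (by norm_num)).2.1
    have g2 := (hs1 2 (by norm_num)).2.1
    rw [← hu]
    refine ⟨(hs1 1 (by norm_num)).1, by linarith, by linarith, hl.2.2.1⟩
  -- the symmetrised form vanishes
  have hsym : ∀ i j, B (e i) (e j) + B (e j) (e i) = 0 := by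
    intro i j
    rcases eq_or_ne i j with rfl | hij
    · obtain ⟨k, hk, _⟩ := hex i i
      obtain ⟨l, hl1, hl2⟩ := hex i k
      have := (hmain i k l hk.symm hl1.symm hl2.symm).1
      rw [this]; norm_num
    · obtain ⟨k, hk1, hk2⟩ := hex i j
      exact (hmain i j k hij hk1.symm hk2.symm).2.1
  have hB : B + B.flip = 0 := by
    apply (EuclideanSpace.basisFun (Fin (n + 1)) ℝ).toBasis.ext
    intro i
    apply (EuclideanSpace.basisFun (Fin (n + 1)) ℝ).toBasis.ext
    intro j
    have := hsym i j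
    simpa [he] using this
  have hB2 : ∀ x y, B x y + B y x = 0 := by
    intro x y
    have := congrArg (fun f => f x y) hB
    simpa using this
  have hB1 : ∀ x, B x x = 0 := by
    intro x
    have := hB2 x x
    linarith
  have hb : b = 0 := by
    apply (EuclideanSpace.basisFun (Fin (n + 1)) ℝ).toBasis.ext
    intro i
    obtain ⟨k, hk, _⟩ := hex i i
    obtain ⟨l, hl1, hl2⟩ := hex i k
    have h1 := (hmain i k l hk.symm hl1.symm hl2.symm).2.2.1
    have h2 := hB2 (pt i k l 0 0 0) (e i)
    have h3 : b (e i) = 0 := by linarith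
    simpa [he] using h3
  have hc : c = 0 := by
    obtain ⟨k, hk, _⟩ := hex 0 0
    obtain ⟨l, hl1, hl2⟩ := hex 0 k
    have h1 := (hmain 0 k l hk.symm hl1.symm hl2.symm).2.2.2
    rw [hB1, hb] at h1
    simpa using h1
  rw [hB1, hb, hc]
  simp

/-- **Result.**  For every `n ≥ 2` there is a strictly convex domain with smooth boundary in
`ℝ^(n+1)` which has the section-centroid collinearity property and whose boundary is not contained
in a quadric. -/
theorem result (n : ℕ) (hn : 2 ≤ n) : ∃ Ω : Set (EuclideanSpace ℝ (Fin (n + 1))),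
    IsOpen Ω ∧ Ω.Nonempty ∧ Convex ℝ Ω ∧ StrictConvex ℝ (closure Ω) ∧ HasSmoothBoundary Ω ∧
      HasSCCP n Ω ∧ ¬ IsContainedInQuadric (frontier Ω) := by
  refine ⟨Om n, isOpen_Om, ?_, convex_Om, ?_, smooth_boundary, sccp, not_quadric hn⟩
  · refine ⟨(2 : ℝ) • WithLp.toLp 2 (fun _ => 1), smul_mem_Om ⟨fun i => by simp, by simp⟩
      (by norm_num)⟩
  · rw [closure_Om]
    exact strictConvex_Cl

end Pool.Agent.Results.MP_d39bc3_gt.ProductDomain
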